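import Pool.Agent.Helper33.KD4.Bump2
import Pool.Agent.Helper33.KD4.WrapDefs
import Pool.Agent.Helper87.KD4.REGV
import Pool.Agent.Helper50.KD4.PV
import Pool.Agent.Helper57.KD4.Kernv
import Pool.Agent.Helper7.KD4.METRIC
import Pool.Agent.Helper28.KD4.Geo

/-! KD project (MP_019250_an), Part IV.8: statements of the pieces of the Euclidean wrapper. -/

namespace KD.IV

open MeasureTheory Set Filter Topology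

variable {d : ℕ}

/-- **IV.8a PV**: the principal value of a symmetric kernel is the second difference integral. -/
theorem PV (hd : 1 ≤ d) {s : ℝ} (hs : 0 < s) (hs1 : s < 1) {g : Vd d → ℝ} (hg : Measurable g)
    {A : ℝ} (hA : ∀ v, |g v| ≤ A) {v : Vd d} {C : ℝ}
    (hC : ∀ w, |sd g v w| ≤ C * min 1 (‖w‖ ^ 2)) {k : Vd d → ℝ} (hk : Measurable k)
    (hke : ∀ w, k (-w) = k w) {Lam : ℝ} (hkb : ∀ w, w ≠ 0 → |k w| ≤ Lam * kr s w)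
    {N : Vd d → ℝ} (hN : Measurable N) (hNe : ∀ w, N (-w) = N w) (hN0 : ∀ w, w ≠ 0 → 0 < N w)
    {c : ℝ} (hc : 0 < c) (hNc : ∀ w, N w ≤ c * ‖w‖) :
    Tendsto (fun ε : ℝ => ∫ w in {w : Vd d | ε ≤ N w}, (g (v + w) - g v) * k w) (𝓝[>] 0)
      (𝓝 ((1 / 2) * ∫ w, sd g v w * k w)) :=
  PV_pf hd hs hs1 hg hA hC hk hke hkb hN hNe hN0 hc hNc

/-- **IV.8b REGV**: transport of regularity. -/
theorem REGV {f : ℝ → Ed d → Ed d → ℝ} {ft : ℝ → Ed d → Ed d → ℝ}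
    {fx fv : ℝ → Ed d → Ed d → (Ed d →L[ℝ] ℝ)}
    {fvv : ℝ → Ed d → Ed d → (Ed d →L[ℝ] Ed d →L[ℝ] ℝ)} (hR : RegE f ft fx fv fvv) :
    ∃ (ft' : ℝ → Vd d → Vd d → ℝ) (fx' fv' : ℝ → Vd d → Vd d → (Vd d →L[ℝ] ℝ))
      (fvv' : ℝ → Vd d → Vd d → (Vd d →L[ℝ] Vd d →L[ℝ] ℝ)),
      Reg (fV f) ft' fx' fv' fvv' (DV d) ∧
      ∀ p ∈ DV d, ft' p.1 p.2.1 p.2.2 = ft p.1 (toE d p.2.1) (toE d p.2.2) ∧
        fx' p.1 p.2.1 p.2.2 p.2.2 = fx p.1 (toE d p.2.1) (toE d p.2.2) (toE d p.2.2) :=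
  REGV_pf hR

/-- **IV.8c KERNV**: transport of the kernel class. -/
theorem KERNV (hd : 1 ≤ d) {s lam Lam M0 : ℝ} (hs : 0 < s) (hlam : 0 < lam) (hLam : lam ≤ Lam)
    (hM0 : 0 ≤ M0) : ∃ lam' M0' : ℝ, 0 < lam' ∧ lam' ≤ lam ∧ 0 ≤ M0' ∧
      ∀ K : ℝ → Ed d → Ed d → Ed d → ℝ, KernE s lam Lam M0 K →
        Kern lam' Lam M0' (aV s lam K) :=
  KERNV_pf hd hs hlam hLam hM0

/-- **IV.8d GEO**: room around the points of `Q`. -/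
theorem GEO (hd : 1 ≤ d) {s : ℝ} (hs : 0 < s) (hs1 : s < 1) :
    ∃ rr : ℝ, 0 < rr ∧ rr ≤ 1 ∧ ∀ (t0 : ℝ) (x0 v0 : Vd d),
      (t0, toE d x0, toE d v0) ∈ QE d → Q1 d ⊆ trD s rr t0 x0 v0 (DV d) :=
  GEO_pf hd hs hs1

/-- **IV.8e METRIC**: from the pointwise decay at every point of `Q` to the estimate in the
kinetic distance. -/
theorem METRIC (hd : 1 ≤ d) {s α rr C : ℝ} (hs : 0 < s) (hs1 : s < 1) (hα : 0 < α) (hrr : 0 < rr)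
    (hrr1 : rr ≤ 1) (hC : 0 < C) :
    ∃ C' > 0, ∀ (f : ℝ → Ed d → Ed d → ℝ) (A B : ℝ), 0 ≤ B →
      (∀ t x v, 0 < t → t < 1 → ‖x‖ < 1 → |f t x v| ≤ A) →
      (∀ (t0 : ℝ) (x0 v0 : Vd d), (t0, toE d x0, toE d v0) ∈ QE d →
        ∀ (ρ : ℝ), 0 < ρ → ρ ≤ 1 → ∀ (t : ℝ) (x v : Vd d), -ρ ^ (2 * s) ≤ t → t ≤ 0 →
        ‖x‖ ≤ ρ ^ (1 + 2 * s) → ‖v‖ ≤ ρ →
        |trf s rr t0 x0 v0 (fV f) t x v - fV f t0 x0 v0| ≤ C * (A + B) * ρ ^ α) →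
      ∀ z ∈ QE d, ∀ z' ∈ QE d,
        |f z.1 z.2.1 z.2.2 - f z'.1 z'.2.1 z'.2.2| ≤ C' * (A + B) * dl s z z' ^ α :=
  METRIC_pf hd hs hs1 hα hrr hrr1 hC

end KD.IV
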