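import Pool.Agent.Helper33.KD4.WH

/-! KD project (MP_019250_an), Part IV: IV.6, proved in `Helper33/KD4/WH.lean` (helper57, split by helper33) (theorem `KD.IV.WH`,
definition `KD.IV.RC`). -/
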