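import Pool.Agent.Helper33.KD4.Tail
import Pool.Agent.Helper33.KD4.St.WH
import Pool.Agent.Helper82.KD4.Pos
import Pool.Agent.Helper52.KD4.Half

/-! KD project (MP_019250_an), Part IV: IV.7 statements (oscillation lemma and its ingredients). -/

namespace KD.IV

open MeasureTheory Set Filter Topology KD.III

variable {d : ℕ}

/-- classical solutions with error `η`: `|∂_t f + v·∇_x f - L f| ≤ η` on `D`, written as two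
supersolution properties -/
def Sol (s η : ℝ) (a : ℝ → Vd d → Vd d → Vd d → ℝ) (f : ℝ → Vd d → Vd d → ℝ)
    (D : Set (ℝ × Vd d × Vd d)) : Prop :=
  Super s η a f D ∧ Super s η a (fun t x v => -f t x v) D

/-- **IV.7a POS** (truncation of a supersolution with a good tail). -/
theorem POS (hd : 1 ≤ d) {s lam Lam : ℝ} (hs : 0 < s) (hs1 : s < 1) (hlam : 0 < lam)
    {r γ : ℝ} (hr : 0 < r) (hr1 : r ≤ 1) (hγ : 0 < γ)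
    (hint : IntegrableOn (fun w : Vd d => (2 * ((‖w‖ + 1) / r) ^ γ - 2) * kr s w)
      {w | 1 / 4 < ‖w‖})
    {M0 η : ℝ} {a : ℝ → Vd d → Vd d → Vd d → ℝ} {f : ℝ → Vd d → Vd d → ℝ}
    {D : Set (ℝ × Vd d × Vd d)} (hK : Kern lam Lam M0 a) (hS : Super s η a f D) (hD : Q1 d ⊆ D)
    (hf1 : ∀ t x v, -1 ≤ t → t ≤ 0 → ‖x‖ ≤ 1 → ‖v‖ ≤ 1 → -1 ≤ f t x v)
    (hf2 : ∀ t x v, -1 ≤ t → t ≤ 0 → ‖x‖ ≤ 1 → 1 ≤ ‖v‖ →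
      -(2 * (‖v‖ / r) ^ γ - 1) ≤ f t x v) :
    ∃ g : ℝ → Vd d → Vd d → ℝ, (∀ t x v, 0 ≤ g t x v) ∧
      (∀ t x v, -1 ≤ t → t ≤ 0 → ‖x‖ ≤ 1 → ‖v‖ ≤ 1 → g t x v = f t x v + 1) ∧
      Super s (η + Lam * ∫ w in {w : Vd d | 1 / 4 < ‖w‖}, (2 * ((‖w‖ + 1) / r) ^ γ - 2) * kr s w)
        a g {p | -1 < p.1 ∧ p.1 < 0 ∧ ‖p.2.1‖ < 1 ∧ ‖p.2.2‖ < 3 / 4} :=
  POS_pf hd hs hs1 hlam hr hr1 hγ hint hK hS hD hf1 hf2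

/-- **IV.7b TAIL** -/
theorem tail_small (hd : 1 ≤ d) {s : ℝ} (hs : 0 < s) (hs1 : s < 1) {r ε : ℝ} (hr : 0 < r)
    (hr1 : r ≤ 1) (hε : 0 < ε) :
    ∃ γ, 0 < γ ∧ γ ≤ s ∧
      IntegrableOn (fun w : Vd d => (2 * ((‖w‖ + 1) / r) ^ γ - 2) * kr s w) {w | 1 / 4 < ‖w‖} ∧
      ∫ w in {w : Vd d | 1 / 4 < ‖w‖}, (2 * ((‖w‖ + 1) / r) ^ γ - 2) * kr s w ≤ ε :=
  tail_small_pf hd hs hs1 hr hr1 hε

/-- **IV.7c HALF**: a continuous function is `≥ -1/4` on half of the cells or `≤ 1/4` on half of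
the cells, for a fine enough grid. -/
theorem HALF {s : ℝ} (hs : 0 < s) (nB L : ℕ) (hnB : ((1 / 2 : ℝ) ^ nB) ^ (2 * s) ≤ 1 / 2)
    (F : ℝ → Vd d → Vd d → ℝ)
    (hF : ContinuousOn (fun p : ℝ × Vd d × Vd d => F p.1 p.2.1 p.2.2) (Q1 d)) :
    ∃ K, L ≤ K ∧
      (((Box s K : Set (Cell d)).ncard : ℝ) / 2 ≤
        (({c : Cell d | ∀ p ∈ RC (-1 / 2) (((1 / 2 : ℝ) ^ nB) ^ (2 * s) / tau s K)
          ((1 / 2 : ℝ) ^ nB * (1 / 2) ^ K) c, p ∈ Q1 d ∧ -1 / 4 ≤ F p.1 p.2.1 p.2.2} ∩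
            Box s K).ncard : ℝ) ∨
      ((Box s K : Set (Cell d)).ncard : ℝ) / 2 ≤
        (({c : Cell d | ∀ p ∈ RC (-1 / 2) (((1 / 2 : ℝ) ^ nB) ^ (2 * s) / tau s K)
          ((1 / 2 : ℝ) ^ nB * (1 / 2) ^ K) c, p ∈ Q1 d ∧ F p.1 p.2.1 p.2.2 ≤ 1 / 4} ∩
            Box s K).ncard : ℝ)) :=
  HALF_pf hs nB L hnB F hF

end KD.IV
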