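import Pool.Agent.Helper33.KD4.PropPf
import Pool.Agent.Helper71.KD4.Clos

/-! KD project (MP_019250_an), Part IV: PROP; the closure lemmas `Kern.tra`, `Super.trf`,
`Super.smul`, `Super.add_const`, `Super.mono` are in `Helper71/KD4/Clos.lean`. -/

namespace KD.IV

open MeasureTheory Set Filter Topology

/-- **IV.5 PROP** (propagation of positivity along a three-leg path). -/
theorem PROP (d : ℕ) (hd : 1 ≤ d) (s lam Lam : ℝ) (hs : 0 < s) (hs1 : s < 1) (hlam : 0 < lam)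
    (hLam : lam ≤ Lam) (r θ T0 T1 Vm : ℝ) (hr : 0 < r) (hθ : 0 < θ) (hθT : θ ≤ T0) (hT : T0 ≤ T1)
    (hVm : 0 ≤ Vm) :
    ∃ c > 0, ∃ η1 > 0, ∀ (M0 η : ℝ) (a : ℝ → Vd d → Vd d → Vd d → ℝ) (f : ℝ → Vd d → Vd d → ℝ)
      (D : Set (ℝ × Vd d × Vd d)), Kern lam Lam M0 a → Super s η a f D → η ≤ η1 →
      (∀ t x v, 0 ≤ f t x v) → ∀ (t0 t1 : ℝ) (x0 x1 v0 u v1 : Vd d),
      T0 ≤ t1 - t0 → t1 - t0 ≤ T1 → x1 = x0 + (t1 - t0) • u → ‖u‖ ≤ Vm → ‖v0‖ ≤ Vm → ‖v1‖ ≤ Vm →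
      -- source
      (∀ t x v, t0 ≤ t → t ≤ t0 + θ → ‖x - (x0 + (t - t0) • v0)‖ ≤ r → ‖v - v0‖ ≤ r →
        1 ≤ f t x v) →
      -- domain
      (∀ t x v, t0 ≤ t → t ≤ t1 → ‖x - (x0 + (t - t0) • u)‖ ≤ r → ‖v - u‖ ≤ r →
        (t, x, v) ∈ D) →
      (∀ t x v, t1 - θ ≤ t → t ≤ t1 → ‖x - (x1 + (t - t1) • v1)‖ ≤ r → ‖v - v1‖ ≤ r →
        (t, x, v) ∈ D) →
      c ≤ f t1 x1 v1 :=
  PROP_pf d hd s lam Lam hs hs1 hlam hLam r θ T0 T1 Vm hr hθ hθT hT hVm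

end KD.IV
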